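import Mathlib

/-!
# Division rings acting on the real line

Let `D` be a division ring whose nonzero elements act on the real line by order automorphisms
`ψ x`, with `ψ (x * y) = ψ x ∘ ψ y` and `ψ (x + y) ≥ min (ψ x) (ψ y)`, such that every affine map
`r ↦ a * r + c` with `0 < a` occurs.  Then the ball `{x | 0 < ψ x (-1)}` (together with `0`) is a
simple domain without identity which is isomorphic to each of its nonzero idempotent left ideals.
-/

set_option autoImplicit false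

namespace Pool.Agent.Lib.MP_dd6327_al

/-- An action of the nonzero elements of a division ring on the real line by strictly
increasing maps, compatible with addition and containing all affine maps of positive slope. -/
structure RealAct (D : Type*) [DivisionRing D] where
  /-- the action -/
  ψ : D → ℝ → ℝ
  mono : ∀ x, x ≠ 0 → StrictMono (ψ x)
  map_mul : ∀ x y, x ≠ 0 → y ≠ 0 → ∀ r, ψ (x * y) r = ψ x (ψ y r)
  map_add : ∀ x y, x ≠ 0 → y ≠ 0 → x + y ≠ 0 → ∀ r, min (ψ x r) (ψ y r) ≤ ψ (x + y) r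
  aff : ∀ a : ℝ, 0 < a → ∀ c : ℝ, ∃ x, x ≠ 0 ∧ ∀ r, ψ x r = a * r + c

namespace RealAct

variable {D : Type*} [DivisionRing D] (P : RealAct D)

theorem map_one (r : ℝ) : P.ψ 1 r = r := by
  have h := P.map_mul 1 1 one_ne_zero one_ne_zero r
  rw [one_mul] at h
  exact ((P.mono 1 one_ne_zero).injective h).symm

theorem map_neg_one (r : ℝ) : P.ψ (-1) r = r := by
  have hn : (-1 : D) ≠ 0 := neg_ne_zero.2 one_ne_zero
  have h := P.map_mul (-1) (-1) hn hn r
  rw [neg_mul_neg, one_mul, P.map_one] at h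
  have hm := P.mono (-1) hn
  rcases lt_trichotomy (P.ψ (-1) r) r with h1 | h1 | h1
  · have := hm h1
    rw [← h] at this
    exact absurd h1 (not_lt.2 this.le)
  · exact h1
  · have := hm h1
    rw [← h] at this
    exact absurd h1 (not_lt.2 this.le)

theorem map_neg (x : D) (hx : x ≠ 0) (r : ℝ) : P.ψ (-x) r = P.ψ x r := by
  have h := P.map_mul (-1) x (neg_ne_zero.2 one_ne_zero) hx r
  rw [neg_one_mul, P.map_neg_one] at h
  exact h

theorem map_inv_left (x : D) (hx : x ≠ 0) (r : ℝ) : P.ψ x⁻¹ (P.ψ x r) = r := by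
  rw [← P.map_mul x⁻¹ x (inv_ne_zero hx) hx, inv_mul_cancel₀ hx, P.map_one]

theorem map_inv_right (x : D) (hx : x ≠ 0) (r : ℝ) : P.ψ x (P.ψ x⁻¹ r) = r := by
  rw [← P.map_mul x x⁻¹ hx (inv_ne_zero hx), mul_inv_cancel₀ hx, P.map_one]

/-- The ball of radius `s`. -/
def ball (s : ℝ) (hs : 0 ≤ s) : NonUnitalSubring D where
  carrier := {x | x ≠ 0 → 0 < P.ψ x (-s)}
  zero_mem' := fun h => absurd rfl h
  add_mem' := by
    intro x y hx hy hxy
    by_cases h1 : x = 0
    · subst h1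
      rw [zero_add] at hxy ⊢
      exact hy hxy
    by_cases h2 : y = 0
    · subst h2
      rw [add_zero] at hxy ⊢
      exact hx hxy
    exact lt_of_lt_of_le (lt_min (hx h1) (hy h2)) (P.map_add x y h1 h2 hxy (-s))
  neg_mem' := by
    intro x hx hnx
    have h1 : x ≠ 0 := neg_ne_zero.1 hnx
    rw [P.map_neg x h1]
    exact hx h1
  mul_mem' := by
    intro x y hx hy hxy
    have h1 : x ≠ 0 := left_ne_zero_of_mul hxy
    have h2 : y ≠ 0 := right_ne_zero_of_mul hxy
    rw [P.map_mul x y h1 h2]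
    have h3 : -s < P.ψ y (-s) := lt_of_le_of_lt (neg_nonpos.2 hs) (hy h2)
    exact lt_trans (hx h1) (P.mono x h1 h3)

theorem mem_ball {s : ℝ} {hs : 0 ≤ s} {x : D} :
    x ∈ P.ball s hs ↔ (x ≠ 0 → 0 < P.ψ x (-s)) := Iff.rfl

/-- The unit ball. -/
abbrev A : NonUnitalSubring D := P.ball 1 zero_le_one

theorem mem_A {x : D} : x ∈ P.A ↔ (x ≠ 0 → 0 < P.ψ x (-1)) := Iff.rfl

/-- Given two nonzero elements `b`, `y` of `A`, `y` is of the form `x * b * x'` with
`x`, `x'` in `A`. -/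
theorem exists_mul_mul (b y : D) (hb : b ∈ P.A) (hb0 : b ≠ 0) (hy : y ∈ P.A) (hy0 : y ≠ 0) :
    ∃ x ∈ P.A, ∃ x' ∈ P.A, y = x * b * x' := by
  have hbpos : 0 < P.ψ b 0 := lt_trans (hb hb0) (P.mono b hb0 (by norm_num))
  set r0 := P.ψ b 0 with hr0
  set q := P.ψ y (-1) with hq
  have hqpos : 0 < q := hy hy0
  have hden : 0 < 4 * (r0 + 1) := by positivity
  obtain ⟨x, hx0, hx⟩ := P.aff (q / (4 * (r0 + 1))) (by positivity) (q / 2)
  have hxA : x ∈ P.A := by
    intro _
    rw [hx]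
    have : q / (4 * (r0 + 1)) ≤ q / 4 := by
      apply div_le_div_of_nonneg_left hqpos.le (by norm_num)
      linarith
    linarith
  refine ⟨x, hxA, b⁻¹ * x⁻¹ * y, ?_, ?_⟩
  · intro _
    rw [P.map_mul _ y (mul_ne_zero (inv_ne_zero hb0) (inv_ne_zero hx0)) hy0,
      P.map_mul _ _ (inv_ne_zero hb0) (inv_ne_zero hx0), ← hq]
    have h1 : P.ψ x (P.ψ b 0) < q := by
      rw [hx, ← hr0]
      have h2 : q / (4 * (r0 + 1)) * r0 ≤ q / 4 := by
        rw [div_mul_eq_mul_div, div_le_div_iff₀ hden (by norm_num)]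
        nlinarith
      linarith
    have h3 : P.ψ b 0 < P.ψ x⁻¹ q := by
      have := P.mono x⁻¹ (inv_ne_zero hx0) h1
      rwa [P.map_inv_left x hx0] at this
    have h4 := P.mono b⁻¹ (inv_ne_zero hb0) h3
    rwa [P.map_inv_left b hb0] at h4
  · rw [← mul_assoc, ← mul_assoc, mul_assoc x b b⁻¹, mul_inv_cancel₀ hb0, mul_one,
      mul_inv_cancel₀ hx0, one_mul]

theorem isSimpleRing_A : IsSimpleRing P.A := by
  -- a nonzero element of `A`
  obtain ⟨t, ht0, ht⟩ := P.aff 1 one_pos 2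
  have htA : t ∈ P.A := by
    intro _
    rw [ht]
    norm_num
  refine ⟨?_⟩
  have hne : (⊥ : TwoSidedIdeal P.A) ≠ ⊤ := by
    intro h
    have h1 : (⟨t, htA⟩ : P.A) ∈ (⊥ : TwoSidedIdeal P.A) := by
      rw [h]
      exact TwoSidedIdeal.mem_top _
    rw [TwoSidedIdeal.mem_bot] at h1
    exact ht0 (congrArg Subtype.val h1)
  have : Nontrivial (TwoSidedIdeal P.A) := ⟨⟨⊥, ⊤, hne⟩⟩
  refine ⟨fun I => ?_⟩
  by_cases hI : ∀ b ∈ I, b = 0
  · left
    apply le_antisymm _ bot_le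
    intro b hb
    rw [hI b hb]
    exact zero_mem _
  · right
    push Not at hI
    obtain ⟨b, hbI, hb0⟩ := hI
    apply le_antisymm le_top
    intro y _
    by_cases hy0 : (y : D) = 0
    · have : y = 0 := Subtype.ext hy0
      rw [this]
      exact zero_mem _
    have hb0' : (b : D) ≠ 0 := fun h => hb0 (Subtype.ext h)
    obtain ⟨x, hx, x', hx', hxy⟩ := P.exists_mul_mul b y b.2 hb0' y.2 hy0
    have : y = (⟨x, hx⟩ : P.A) * b * ⟨x', hx'⟩ := Subtype.ext hxy
    rw [this]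
    exact I.mul_mem_right _ _ (I.mul_mem_left _ _ hbI)

theorem noZeroDivisors_A : NoZeroDivisors P.A := by
  refine ⟨?_⟩
  intro a b hab
  have : (a : D) * (b : D) = 0 := congrArg Subtype.val hab
  rcases mul_eq_zero.1 this with h | h
  · left; exact Subtype.ext h
  · right; exact Subtype.ext h

theorem no_identity_A : ¬ ∃ e : P.A, (∀ x : P.A, e * x = x ∧ x * e = x) ∧
    ∀ x : P.A, x ≠ 0 → ∃ y : P.A, x * y = e ∧ y * x = e := by
  rintro ⟨e, he, -⟩
  obtain ⟨t, ht0, ht⟩ := P.aff 1 one_pos 2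
  have htA : t ∈ P.A := by
    intro _
    rw [ht]
    norm_num
  have h1 : (e : D) * t = t := congrArg Subtype.val (he ⟨t, htA⟩).1
  have h2 : (e : D) = 1 := by
    have : (e : D) * t = 1 * t := by rw [h1, one_mul]
    exact mul_right_cancel₀ ht0 this
  have h3 := e.2
  rw [h2] at h3
  have h4 := h3 one_ne_zero
  rw [P.map_one] at h4
  norm_num at h4

/-- Conjugation by an element `u` acting by scaling by `s` maps `A` onto the ball of radius `s`. -/
theorem conj_mem_ball_iff (s : ℝ) (hs : 0 < s) (u : D) (hu0 : u ≠ 0)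
    (hu : ∀ r, P.ψ u r = s * r) (x : D) :
    u * x * u⁻¹ ∈ P.ball s hs.le ↔ x ∈ P.A := by
  by_cases hx : x = 0
  · subst hx
    simp only [mul_zero, zero_mul]
    exact ⟨fun _ => zero_mem _, fun _ => zero_mem _⟩
  have hinv : P.ψ u⁻¹ (-s) = -1 := by
    have h1 := P.map_inv_left u hu0 (-1)
    rw [hu] at h1
    rw [← h1]
    congr 1
    ring
  have key : P.ψ (u * x * u⁻¹) (-s) = s * P.ψ x (-1) := by
    rw [P.map_mul _ _ (mul_ne_zero hu0 hx) (inv_ne_zero hu0), P.map_mul _ _ hu0 hx, hinv, hu]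
  have hne : u * x * u⁻¹ ≠ 0 := mul_ne_zero (mul_ne_zero hu0 hx) (inv_ne_zero hu0)
  rw [mem_ball, mem_A, key]
  constructor
  · intro h _
    exact (mul_pos_iff_of_pos_left hs).1 (h hne)
  · intro h _
    exact mul_pos hs (h hx)

section LeftIdeal

variable (L : NonUnitalSubring P.A) (hleft : ∀ r x : P.A, x ∈ L → r * x ∈ L)
  (hidem : AddSubgroup.closure {z : P.A | ∃ a ∈ L, ∃ b ∈ L, z = a * b} = L.toAddSubgroup)

include hleft in
/-- If `r` has `0 ≤ ψ r 0`, then `r` maps sums of products of elements of `L` into `L`. -/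
theorem smul_closure_mem (r : D) (hr0 : r ≠ 0) (hr : 0 ≤ P.ψ r 0) (z : P.A)
    (hz : z ∈ AddSubgroup.closure {z : P.A | ∃ a ∈ L, ∃ b ∈ L, z = a * b}) :
    ∃ h : r * (z : D) ∈ P.A, (⟨r * (z : D), h⟩ : P.A) ∈ L := by
  induction hz using AddSubgroup.closure_induction with
  | mem x hx =>
    obtain ⟨a, ha, b, hb, rfl⟩ := hx
    have hra : r * (a : D) ∈ P.A := by
      intro hne
      have ha0 : (a : D) ≠ 0 := right_ne_zero_of_mul hne
      rw [P.map_mul r a hr0 ha0]
      exact lt_of_le_of_lt hr (P.mono r hr0 (a.2 ha0))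
    have h2 : (⟨r * (a : D), hra⟩ : P.A) * b ∈ L := hleft _ _ hb
    have h3 : r * ((a * b : P.A) : D) = (((⟨r * (a : D), hra⟩ : P.A) * b : P.A) : D) := by
      change r * ((a : D) * (b : D)) = r * (a : D) * (b : D)
      rw [mul_assoc]
    have h4 : r * ((a * b : P.A) : D) ∈ P.A := by
      rw [h3]
      exact ((⟨r * (a : D), hra⟩ : P.A) * b).2
    refine ⟨h4, ?_⟩
    have h5 : (⟨r * ((a * b : P.A) : D), h4⟩ : P.A) = (⟨r * (a : D), hra⟩ : P.A) * b :=
      Subtype.ext h3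
    rw [h5]
    exact h2
  | zero =>
    have h1 : r * ((0 : P.A) : D) = 0 := by
      change r * (0 : D) = 0
      rw [mul_zero]
    have h2 : r * ((0 : P.A) : D) ∈ P.A := by
      rw [h1]
      exact zero_mem _
    refine ⟨h2, ?_⟩
    have h3 : (⟨r * ((0 : P.A) : D), h2⟩ : P.A) = 0 := Subtype.ext h1
    rw [h3]
    exact zero_mem _
  | add x y _ _ hx hy =>
    obtain ⟨h1, h1'⟩ := hx
    obtain ⟨h2, h2'⟩ := hy
    have h3 : r * ((x + y : P.A) : D) = r * (x : D) + r * (y : D) := by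
      change r * ((x : D) + (y : D)) = _
      rw [mul_add]
    have h4 : r * ((x + y : P.A) : D) ∈ P.A := by
      rw [h3]
      exact add_mem h1 h2
    refine ⟨h4, ?_⟩
    have h5 : (⟨r * ((x + y : P.A) : D), h4⟩ : P.A)
        = (⟨r * (x : D), h1⟩ : P.A) + ⟨r * (y : D), h2⟩ := Subtype.ext h3
    rw [h5]
    exact add_mem h1' h2'
  | neg x _ hx =>
    obtain ⟨h1, h1'⟩ := hx
    have h3 : r * ((-x : P.A) : D) = -(r * (x : D)) := by
      change r * (-(x : D)) = _
      rw [mul_neg]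
    have h4 : r * ((-x : P.A) : D) ∈ P.A := by
      rw [h3]
      exact neg_mem h1
    refine ⟨h4, ?_⟩
    have h5 : (⟨r * ((-x : P.A) : D), h4⟩ : P.A) = -(⟨r * (x : D), h1⟩ : P.A) := Subtype.ext h3
    rw [h5]
    exact neg_mem h1'

include hleft hidem in
/-- An idempotent left ideal is upward closed. -/
theorem up_closed (x : P.A) (hx : x ∈ L) (hx0 : (x : D) ≠ 0) (y : D) (hy0 : y ≠ 0)
    (hxy : P.ψ y⁻¹ 0 ≤ P.ψ (x : D)⁻¹ 0) : ∃ h : y ∈ P.A, (⟨y, h⟩ : P.A) ∈ L := by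
  have hr0 : y * (x : D)⁻¹ ≠ 0 := mul_ne_zero hy0 (inv_ne_zero hx0)
  have hr : 0 ≤ P.ψ (y * (x : D)⁻¹) 0 := by
    rw [P.map_mul _ _ hy0 (inv_ne_zero hx0)]
    have := (P.mono y hy0).monotone hxy
    rwa [P.map_inv_right y hy0] at this
  have hxc : x ∈ AddSubgroup.closure {z : P.A | ∃ a ∈ L, ∃ b ∈ L, z = a * b} := by
    rw [hidem]
    exact hx
  obtain ⟨h1, h2⟩ := P.smul_closure_mem L hleft _ hr0 hr x hxc
  have h3 : y * (x : D)⁻¹ * (x : D) = y := by
    rw [mul_assoc, inv_mul_cancel₀ hx0, mul_one]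
  have h4 : y ∈ P.A := by
    rw [h3] at h1
    exact h1
  refine ⟨h4, ?_⟩
  have h5 : (⟨y, h4⟩ : P.A) = ⟨y * (x : D)⁻¹ * (x : D), h1⟩ := Subtype.ext h3.symm
  rw [h5]
  exact h2

theorem lt_neg_one_of_mem (x : P.A) (hx0 : (x : D) ≠ 0) : P.ψ (x : D)⁻¹ 0 < -1 := by
  have h1 := x.2 hx0
  have h2 := P.mono _ (inv_ne_zero hx0) h1
  rwa [P.map_inv_left _ hx0] at h2

include hidem in
/-- In an idempotent left ideal there is no element of largest size. -/
theorem not_attained (x : P.A) (hx : x ∈ L) (hx0 : (x : D) ≠ 0) :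
    ∃ b ∈ L, (b : D) ≠ 0 ∧ P.ψ (x : D)⁻¹ 0 < P.ψ (b : D)⁻¹ 0 := by
  by_contra hcon
  push Not at hcon
  set t := P.ψ (x : D)⁻¹ 0 with ht
  have ht1 : t < -1 := P.lt_neg_one_of_mem x hx0
  have hs : 0 ≤ -t := by linarith
  have key : ∀ z ∈ AddSubgroup.closure {z : P.A | ∃ a ∈ L, ∃ b ∈ L, z = a * b},
      (z : D) ∈ P.ball (-t) hs := by
    intro z hz
    induction hz using AddSubgroup.closure_induction with
    | mem z hz =>
      obtain ⟨a, ha, b, hb, rfl⟩ := hz
      intro hne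
      have hne' : (a : D) * (b : D) ≠ 0 := hne
      have ha0 : (a : D) ≠ 0 := left_ne_zero_of_mul hne'
      have hb0 : (b : D) ≠ 0 := right_ne_zero_of_mul hne'
      change 0 < P.ψ ((a : D) * (b : D)) (- -t)
      rw [P.map_mul _ _ ha0 hb0, neg_neg]
      have h1 : 0 ≤ P.ψ (b : D) t := by
        have := (P.mono _ hb0).monotone (hcon b hb hb0)
        rwa [P.map_inv_right _ hb0] at this
      have h2 : (-1 : ℝ) < P.ψ (b : D) t := by linarith
      exact lt_trans (a.2 ha0) (P.mono _ ha0 h2)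
    | zero => exact zero_mem _
    | add x y _ _ hx hy => exact add_mem hx hy
    | neg x _ hx => exact neg_mem hx
  have h1 : (x : D) ∈ P.ball (-t) hs := by
    apply key
    rw [hidem]
    exact hx
  have h2 := h1 hx0
  rw [neg_neg, ht, P.map_inv_right _ hx0] at h2
  exact lt_irrefl _ h2

include hleft hidem in
/-- A nonzero idempotent left ideal of `A` is a ball. -/
theorem exists_ball (hL : L ≠ ⊥) : ∃ s : ℝ, ∃ hs : 0 < s, ∀ y : D,
    (∃ h : y ∈ P.A, (⟨y, h⟩ : P.A) ∈ L) ↔ y ∈ P.ball s hs.le := by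
  obtain ⟨x, hx, hx0⟩ : ∃ x ∈ L, x ≠ 0 := by
    by_contra hcon
    push Not at hcon
    apply hL
    apply le_antisymm _ bot_le
    intro x hx
    rw [hcon x hx]
    exact zero_mem _
  have hx0' : (x : D) ≠ 0 := fun h => hx0 (Subtype.ext h)
  set M : Set ℝ := {t | ∃ x ∈ L, (x : D) ≠ 0 ∧ t = P.ψ (x : D)⁻¹ 0} with hM
  have hMne : M.Nonempty := ⟨_, x, hx, hx0', rfl⟩
  have hMb : BddAbove M := by
    refine ⟨-1, ?_⟩
    rintro t ⟨x, hx, hx0, rfl⟩
    exact (P.lt_neg_one_of_mem x hx0).le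
  have hsup : sSup M ≤ -1 := by
    apply csSup_le hMne
    rintro t ⟨x, hx, hx0, rfl⟩
    exact (P.lt_neg_one_of_mem x hx0).le
  have hpos : 0 < -sSup M := by linarith
  refine ⟨-sSup M, hpos, ?_⟩
  intro y
  constructor
  · rintro ⟨h, hyL⟩ hy0
    obtain ⟨b, hb, hb0, hlt⟩ := P.not_attained L hidem ⟨y, h⟩ hyL hy0
    have h1 : P.ψ (b : D)⁻¹ 0 ≤ sSup M := le_csSup hMb ⟨b, hb, hb0, rfl⟩
    have h2 : P.ψ y⁻¹ 0 < sSup M := lt_of_lt_of_le hlt h1
    have h3 := P.mono y hy0 h2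
    rw [P.map_inv_right y hy0] at h3
    rwa [neg_neg]
  · intro hy
    by_cases hy0 : y = 0
    · subst hy0
      exact ⟨zero_mem _, zero_mem L⟩
    have h1 := hy hy0
    rw [neg_neg] at h1
    have h2 := P.mono _ (inv_ne_zero hy0) h1
    rw [P.map_inv_left y hy0] at h2
    obtain ⟨t, ⟨z, hz, hz0, rfl⟩, hlt⟩ := exists_lt_of_lt_csSup hMne h2
    exact P.up_closed L hleft hidem z hz hz0 y hy0 hlt.le

include hleft hidem in
/-- Every nonzero idempotent left ideal of `A` is isomorphic to `A` as a ring. -/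
theorem nonempty_ringEquiv (hL : L ≠ ⊥) : Nonempty (L ≃+* P.A) := by
  obtain ⟨s, hs, hball⟩ := P.exists_ball L hleft hidem hL
  obtain ⟨u, hu0, hu⟩ := P.aff s hs 0
  have hu' : ∀ r, P.ψ u r = s * r := by
    intro r
    rw [hu, add_zero]
  -- the map from `A` to `L`
  have h1 : ∀ x : P.A, ∃ h : u * (x : D) * u⁻¹ ∈ P.A, (⟨u * (x : D) * u⁻¹, h⟩ : P.A) ∈ L := by
    intro x
    rw [hball, P.conj_mem_ball_iff s hs u hu0 hu']
    exact x.2
  have h2 : ∀ y : L, u⁻¹ * ((y : P.A) : D) * u ∈ P.A := by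
    intro y
    rw [← P.conj_mem_ball_iff s hs u hu0 hu', ← hball]
    have h3 : u * (u⁻¹ * ((y : P.A) : D) * u) * u⁻¹ = ((y : P.A) : D) := by
      simp only [mul_assoc, mul_inv_cancel₀ hu0, mul_one, mul_inv_cancel_left₀ hu0]
    rw [h3]
    exact ⟨(y : P.A).2, y.2⟩
  let e : P.A ≃+* L :=
    { toFun := fun x => ⟨⟨u * (x : D) * u⁻¹, (h1 x).choose⟩, (h1 x).choose_spec⟩
      invFun := fun y => ⟨u⁻¹ * ((y : P.A) : D) * u, h2 y⟩
      left_inv := by
        intro x
        apply Subtype.ext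
        change u⁻¹ * (u * (x : D) * u⁻¹) * u = (x : D)
        simp only [mul_assoc, inv_mul_cancel₀ hu0, mul_one, inv_mul_cancel_left₀ hu0]
      right_inv := by
        intro y
        apply Subtype.ext
        apply Subtype.ext
        change u * (u⁻¹ * ((y : P.A) : D) * u) * u⁻¹ = ((y : P.A) : D)
        simp only [mul_assoc, mul_inv_cancel₀ hu0, mul_one, mul_inv_cancel_left₀ hu0]
      map_mul' := by
        intro x y
        apply Subtype.ext
        apply Subtype.ext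
        change u * ((x : D) * (y : D)) * u⁻¹ = (u * (x : D) * u⁻¹) * (u * (y : D) * u⁻¹)
        simp only [mul_assoc, inv_mul_cancel_left₀ hu0]
      map_add' := by
        intro x y
        apply Subtype.ext
        apply Subtype.ext
        change u * ((x : D) + (y : D)) * u⁻¹ = (u * (x : D) * u⁻¹) + (u * (y : D) * u⁻¹)
        rw [mul_add, add_mul] }
  exact ⟨e.symm⟩

end LeftIdeal

end RealAct

end Pool.Agent.Lib.MP_dd6327_al
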