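import Pool.Agent.Lib.MP_dd6327_al.Ore
import Pool.Agent.Lib.MP_dd6327_al.Balls

/-!
# Extending the action to the division ring of fractions
-/

set_option autoImplicit false
set_option linter.unusedSectionVars false

open OreLocalization

namespace Pool.Agent.Lib.MP_dd6327_al

/-- An action of the nonzero elements of a domain on the real line. -/
structure DomAct (S : Type*) [Ring S] where
  /-- the action -/
  val : ∀ z : S, z ≠ 0 → ℝ → ℝ
  mono : ∀ z hz, StrictMono (val z hz)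
  surj : ∀ z hz, Function.Surjective (val z hz)
  map_mul : ∀ z z' hz hz' hzz' r, val (z * z') hzz' r = val z hz (val z' hz' r)
  map_add : ∀ z z' hz hz' hzz' r, min (val z hz r) (val z' hz' r) ≤ val (z + z') hzz' r
  aff : ∀ a : ℝ, 0 < a → ∀ c : ℝ, ∃ z, ∃ hz, ∀ r, val z hz r = a * r + c

namespace DomAct

variable {S : Type*} [Ring S] [Nontrivial S] [NoZeroDivisors S] (Q : DomAct S)

/-- The order automorphism attached to a nonzero element. -/
noncomputable def g (z : S) (hz : z ≠ 0) : ℝ ≃o ℝ :=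
  StrictMono.orderIsoOfSurjective _ (Q.mono z hz) (Q.surj z hz)

theorem g_apply (z : S) (hz : z ≠ 0) (r : ℝ) : Q.g z hz r = Q.val z hz r := rfl

theorem g_mul (z z' : S) (hz : z ≠ 0) (hz' : z' ≠ 0) (hzz' : z * z' ≠ 0) :
    Q.g (z * z') hzz' = Q.g z hz * Q.g z' hz' := by
  ext r
  exact Q.map_mul z z' hz hz' hzz' r

theorem g_one (h : (1 : S) ≠ 0) : Q.g 1 h = 1 := by
  have h1 : (1 : S) * 1 ≠ 0 := by rwa [one_mul]
  have h2 := Q.g_mul 1 1 h h h1
  have h3 : Q.g (1 * 1) h1 = Q.g 1 h := by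
    congr 1
    rw [one_mul]
  rw [h3] at h2
  exact (mul_eq_left.1 h2.symm)

open Classical in
/-- The homomorphism to the group with zero of order automorphisms. -/
noncomputable def f : S →* WithZero (ℝ ≃o ℝ) where
  toFun z := if h : z = 0 then 0 else (Q.g z h : WithZero (ℝ ≃o ℝ))
  map_one' := by
    rw [dif_neg one_ne_zero, g_one]
    rfl
  map_mul' z z' := by
    by_cases hz : z = 0
    · simp [hz]
    by_cases hz' : z' = 0
    · simp [hz']
    rw [dif_neg (mul_ne_zero hz hz'), dif_neg hz, dif_neg hz', Q.g_mul z z' hz hz',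
      WithZero.coe_mul]

theorem f_apply (z : S) (hz : z ≠ 0) : Q.f z = (Q.g z hz : WithZero (ℝ ≃o ℝ)) :=
  dif_neg hz

theorem f_ne_zero (z : S) (hz : z ≠ 0) : Q.f z ≠ 0 := by
  rw [Q.f_apply z hz]
  exact WithZero.coe_ne_zero

/-- The homomorphism on nonzero divisors. -/
noncomputable def fS : nonZeroDivisors S →* (WithZero (ℝ ≃o ℝ))ˣ where
  toFun s := Units.mk0 (Q.f s) (Q.f_ne_zero _ (nonZeroDivisors.coe_ne_zero s))
  map_one' := by
    ext
    exact Q.f.map_one
  map_mul' s s' := by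
    ext
    exact Q.f.map_mul s s'

theorem fS_coe (s : nonZeroDivisors S) : Q.f s = Q.fS s := rfl

variable [OreSet (nonZeroDivisors S)]

/-- The extension to the division ring of fractions. -/
noncomputable def F : OreLocalization (nonZeroDivisors S) S →* WithZero (ℝ ≃o ℝ) :=
  universalMulHom Q.f Q.fS Q.fS_coe

theorem F_apply (z : S) (s : nonZeroDivisors S) :
    Q.F (z /ₒ s) = ((Q.fS s)⁻¹ : (WithZero (ℝ ≃o ℝ))ˣ) * Q.f z := rfl

theorem F_ne_zero (x : OreLocalization (nonZeroDivisors S) S) (hx : x ≠ 0) : Q.F x ≠ 0 := by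
  intro h
  have h1 : Q.F (x * x⁻¹) = 1 := by
    rw [mul_inv_cancel₀ hx, map_one]
  rw [_root_.map_mul, h, zero_mul] at h1
  exact zero_ne_one h1

/-- The action of an element of `WithZero (ℝ ≃o ℝ)`. -/
noncomputable def act (e : WithZero (ℝ ≃o ℝ)) (r : ℝ) : ℝ :=
  WithZero.recZeroCoe (motive := fun _ => ℝ) 0 (fun e => e r) e

theorem act_coe (e : ℝ ≃o ℝ) (r : ℝ) : act (e : WithZero (ℝ ≃o ℝ)) r = e r := rfl

theorem exists_coe (x : OreLocalization (nonZeroDivisors S) S) (hx : x ≠ 0) :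
    ∃ e : ℝ ≃o ℝ, Q.F x = (e : WithZero (ℝ ≃o ℝ)) := by
  obtain ⟨e, he⟩ := WithZero.ne_zero_iff_exists.1 (Q.F_ne_zero x hx)
  exact ⟨e, he.symm⟩

theorem act_oreDiv (z : S) (hz : z ≠ 0) (s : nonZeroDivisors S) (r : ℝ) :
    act (Q.F (z /ₒ s)) r
      = (Q.g s (nonZeroDivisors.coe_ne_zero s))⁻¹ (Q.g z hz r) := by
  have h1 : Q.F (z /ₒ s)
      = (((Q.g s (nonZeroDivisors.coe_ne_zero s))⁻¹ * Q.g z hz : ℝ ≃o ℝ) :
        WithZero (ℝ ≃o ℝ)) := by
    rw [F_apply, Q.f_apply z hz, WithZero.coe_mul, WithZero.coe_inv,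
      ← Q.f_apply s (nonZeroDivisors.coe_ne_zero s), Units.val_inv_eq_inv_val]
    rfl
  rw [h1, act_coe]
  rfl

theorem exists_common (x y : OreLocalization (nonZeroDivisors S) S) :
    ∃ (a b : S) (s : nonZeroDivisors S), x = a /ₒ s ∧ y = b /ₒ s := by
  induction x using OreLocalization.ind with | _ r₁ s₁
  induction y using OreLocalization.ind with | _ r₂ s₂
  obtain ⟨r', s', h⟩ := oreCondition (s₁ : S) s₂
  have h1 : (s' : S) * (s₁ : S) ∈ nonZeroDivisors S := mul_mem s'.2 s₁.2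
  have h2 : r' * (s₂ : S) ∈ nonZeroDivisors S := by
    rw [← h]
    exact h1
  refine ⟨(s' : S) * r₁, r' * r₂, ⟨(s' : S) * (s₁ : S), h1⟩, ?_, ?_⟩
  · exact OreLocalization.expand r₁ s₁ (s' : S) h1
  · have h3 : (⟨(s' : S) * (s₁ : S), h1⟩ : nonZeroDivisors S) = ⟨r' * (s₂ : S), h2⟩ :=
      Subtype.ext h
    rw [h3]
    exact OreLocalization.expand r₂ s₂ r' h2

theorem oreDiv_ne_zero_iff (z : S) (s : nonZeroDivisors S) :
    (z /ₒ s : OreLocalization (nonZeroDivisors S) S) ≠ 0 ↔ z ≠ 0 := by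
  constructor
  · rintro h rfl
    exact h (by simp)
  · intro hz h
    have h1 : (s /ₒ (1 : nonZeroDivisors S) : OreLocalization (nonZeroDivisors S) S)
        * (z /ₒ s) = 0 := by rw [h, mul_zero]
    rw [OreLocalization.mul_cancel, OreLocalization.zero_def] at h1
    have h2 : Function.Injective
        (numeratorHom : S → OreLocalization (nonZeroDivisors S) S) :=
      numeratorHom_inj inf_le_left
    exact hz (h2 h1)

/-- The action of the division ring of fractions. -/
noncomputable def realAct : RealAct (OreLocalization (nonZeroDivisors S) S) where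
  ψ x r := act (Q.F x) r
  mono := by
    intro x hx
    obtain ⟨e, he⟩ := Q.exists_coe x hx
    intro r r' h
    simp only [he, act_coe]
    exact e.strictMono h
  map_mul := by
    intro x y hx hy r
    obtain ⟨e, he⟩ := Q.exists_coe x hx
    obtain ⟨e', he'⟩ := Q.exists_coe y hy
    simp only [_root_.map_mul, he, he', ← WithZero.coe_mul, act_coe]
    rfl
  map_add := by
    intro x y hx hy hxy r
    obtain ⟨a, b, s, rfl, rfl⟩ := exists_common x y
    rw [OreLocalization.add_oreDiv] at hxy ⊢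
    rw [oreDiv_ne_zero_iff] at hx hy hxy
    simp only [Q.act_oreDiv _ hx, Q.act_oreDiv _ hy, Q.act_oreDiv _ hxy]
    rw [← (OrderIso.monotone _).map_min]
    exact OrderIso.monotone _ (Q.map_add a b hx hy hxy r)
  aff := by
    intro a ha c
    obtain ⟨z, hz, h⟩ := Q.aff a ha c
    refine ⟨z /ₒ 1, (oreDiv_ne_zero_iff z 1).2 hz, ?_⟩
    intro r
    rw [Q.act_oreDiv z hz]
    have h1 : Q.g ((1 : nonZeroDivisors S) : S) (nonZeroDivisors.coe_ne_zero 1) = 1 :=
      Q.g_one _
    rw [h1, inv_one]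
    exact h r

end DomAct

end Pool.Agent.Lib.MP_dd6327_al
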