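import Pool.Agent.Lib.MP_dd6327_al.Frac

/-!
# The example

The base ring is the field of Hahn series `ℚ((t^ℝ))`, on which the positive reals act by scaling
the exponents.
-/

set_option autoImplicit false

namespace Pool.Agent.Lib.MP_dd6327_al

/-- Hahn series over `ℚ` with real exponents. -/
def HS : Type := HahnSeries ℝ ℚ

noncomputable instance : Field HS := inferInstanceAs (Field (HahnSeries ℝ ℚ))

theorem mulLeft_injective (a : G) : Function.Injective (AddMonoidHom.mulLeft (a : ℝ)) := by
  intro x y h
  exact mul_left_cancel₀ a.2.ne' h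

theorem mulLeft_le (a : G) (x y : ℝ) :
    AddMonoidHom.mulLeft (a : ℝ) x ≤ AddMonoidHom.mulLeft (a : ℝ) y ↔ x ≤ y :=
  mul_le_mul_iff_right₀ a.2

/-- Scaling the exponents. -/
noncomputable def scale (a : G) : HahnSeries ℝ ℚ →+* HahnSeries ℝ ℚ :=
  HahnSeries.embDomainRingHom (AddMonoidHom.mulLeft (a : ℝ)) (mulLeft_injective a) (mulLeft_le a)

theorem scale_coeff_mul (a : G) (x : HahnSeries ℝ ℚ) (γ : ℝ) :
    (scale a x).coeff ((a : ℝ) * γ) = x.coeff γ :=
  HahnSeries.embDomain_mk_coeff (f := fun γ : ℝ => (a : ℝ) * γ) (mulLeft_injective a)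
    (fun g g' => mulLeft_le a g g')

theorem scale_coeff (a : G) (x : HahnSeries ℝ ℚ) (γ : ℝ) :
    (scale a x).coeff γ = x.coeff ((a : ℝ)⁻¹ * γ) := by
  have h : γ = (a : ℝ) * ((a : ℝ)⁻¹ * γ) := by
    rw [mul_inv_cancel_left₀ a.2.ne']
  conv_lhs => rw [h]
  exact scale_coeff_mul a x _

theorem scale_one (x : HahnSeries ℝ ℚ) : scale 1 x = x := by
  ext γ
  rw [scale_coeff]
  simp

theorem scale_mul (a b : G) (x : HahnSeries ℝ ℚ) : scale (a * b) x = scale a (scale b x) := by
  ext γ
  rw [scale_coeff, scale_coeff, scale_coeff]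
  congr 1
  have h4 : ((a * b : G) : ℝ) = (a : ℝ) * (b : ℝ) := rfl
  rw [h4, mul_inv]
  ring

noncomputable instance : MulSemiringAction G HS where
  smul a x := scale a x
  one_smul x := scale_one x
  mul_smul a b x := scale_mul a b x
  smul_zero a := (scale a).map_zero
  smul_add a x y := (scale a).map_add x y
  smul_one a := (scale a).map_one
  smul_mul a x y := (scale a).map_mul x y

theorem order_scale (a : G) (x : HahnSeries ℝ ℚ) (hx : x ≠ 0) :
    (scale a x).order = (a : ℝ) * x.order := by
  have h1 : scale a x ≠ 0 := by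
    intro h
    exact hx ((scale a).injective (h.trans (scale a).map_zero.symm))
  have h2 := HahnSeries.order_eq_orderTop_of_ne_zero h1
  have h3 := HahnSeries.order_eq_orderTop_of_ne_zero hx
  have h4 : (scale a x).orderTop
      = WithTop.map (fun γ : ℝ => (a : ℝ) * γ) x.orderTop :=
    HahnSeries.orderTop_embDomain
  rw [← h2, ← h3, WithTop.map_coe] at h4
  exact WithTop.coe_injective h4

/-- The valuation on the field of Hahn series. -/
noncomputable def hsVal : ScaledVal HS where
  w := fun x => HahnSeries.order (show HahnSeries ℝ ℚ from x)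
  ne_zero_mul := fun x y hx hy => mul_ne_zero hx hy
  map_mul := fun x y hx hy =>
    HahnSeries.order_mul (x := (show HahnSeries ℝ ℚ from x)) (y := (show HahnSeries ℝ ℚ from y))
      hx hy
  map_add := fun x y hxy =>
    HahnSeries.min_order_le_order_add (x := (show HahnSeries ℝ ℚ from x))
      (y := (show HahnSeries ℝ ℚ from y)) hxy
  map_neg := fun x => HahnSeries.order_neg (f := (show HahnSeries ℝ ℚ from x))
  map_smul := fun a x hx => order_scale a x hx
  exists_eq := fun c => ⟨(HahnSeries.single c (1 : ℚ) : HahnSeries ℝ ℚ),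
    (HahnSeries.single_ne_zero one_ne_zero : (HahnSeries.single c (1 : ℚ) : HahnSeries ℝ ℚ) ≠ 0),
    HahnSeries.order_single one_ne_zero⟩

/-- The skew group ring. -/
abbrev SR : Type := SkewMonoidAlgebra HS G

instance : NoZeroDivisors SR where
  eq_zero_or_eq_zero_of_mul_eq_zero := by
    intro a b hab
    by_contra hcon
    push Not at hcon
    exact hsVal.mul_ne_zero' a b hcon.1 hcon.2 hab

theorem nonempty_oreSet : Nonempty (OreLocalization.OreSet (nonZeroDivisors SR)) := by
  rw [OreLocalization.nonempty_oreSet_iff_of_noZeroDivisors]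
  intro r s
  obtain ⟨r', s', hs', h⟩ := hsVal.exists_ore r s (nonZeroDivisors.coe_ne_zero s)
  exact ⟨r', ⟨s', mem_nonZeroDivisors_of_ne_zero hs'⟩, h⟩

noncomputable instance : OreLocalization.OreSet (nonZeroDivisors SR) :=
  nonempty_oreSet.some

/-- The action of the skew group ring on the line. -/
noncomputable def domAct : DomAct SR where
  val := fun z hz => hsVal.val z hz
  mono := fun z hz => hsVal.val_strictMono z hz
  surj := fun z hz => hsVal.val_surjective z hz
  map_mul := fun z z' hz hz' hzz' r => hsVal.val_mul z z' hz hz' hzz' r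
  map_add := fun z z' hz hz' hzz' r => hsVal.val_add z z' hz hz' hzz' r
  aff := by
    intro a ha c
    obtain ⟨x, hx, hxc⟩ := hsVal.exists_eq c
    refine ⟨SkewMonoidAlgebra.single ⟨a, ha⟩ x, ScaledVal.single_ne_zero _ x hx, ?_⟩
    intro r
    rw [hsVal.val_single _ x hx, hxc]

/-- The division ring of fractions of the skew group ring. -/
abbrev DR : Type := OreLocalization (nonZeroDivisors SR) SR

/-- The action of the division ring on the line. -/
noncomputable def act : RealAct DR := domAct.realAct

theorem main :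
    ∃ (R : Type) (inst : NonUnitalRing R),
      IsSimpleRing R ∧ NoZeroDivisors R ∧
      (¬ ∃ e : R, (∀ x : R, e * x = x ∧ x * e = x) ∧
          ∀ x : R, x ≠ 0 → ∃ y : R, x * y = e ∧ y * x = e) ∧
      ∀ L : NonUnitalSubring R, L ≠ ⊥ →
        (∀ r x : R, x ∈ L → r * x ∈ L) →
        AddSubgroup.closure {z : R | ∃ a ∈ L, ∃ b ∈ L, z = a * b} = L.toAddSubgroup →
        Nonempty (L ≃+* R) :=
  ⟨act.A, inferInstance, act.isSimpleRing_A, act.noZeroDivisors_A, act.no_identity_A,
    fun L hL hleft hidem => act.nonempty_ringEquiv L hleft hidem hL⟩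

end Pool.Agent.Lib.MP_dd6327_al
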