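import Pool.Agent.Lib.MP_dd6327_al.Skew

/-!
# The Ore condition for the skew group ring

The proof is a counting argument: for a finite subset `K` of a commutative group the powers
`K ^ n` grow polynomially, so `K ^ (n + 1)` has less than twice as many elements as `K ^ n`
for some `n`, and a homogeneous linear system with more unknowns than equations has a
nonzero solution.
-/

set_option autoImplicit false
set_option linter.unusedSectionVars false

open scoped Pointwise

namespace Pool.Agent.Lib.MP_dd6327_al

theorem mem_pow_exists {M : Type*} [CommMonoid M] [DecidableEq M] (K : Finset M) (n : ℕ)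
    (g : M) (hg : g ∈ K ^ n) :
    ∃ f : K → Fin (n + 1), g = ∏ k : K, (k : M) ^ (f k : ℕ) := by
  induction n generalizing g with
  | zero =>
    rw [pow_zero, Finset.mem_one] at hg
    refine ⟨fun _ => 0, ?_⟩
    rw [hg]
    simp
  | succ n ih =>
    rw [pow_succ, Finset.mem_mul] at hg
    obtain ⟨g', hg', k₀, hk₀, rfl⟩ := hg
    obtain ⟨f, hf⟩ := ih g' hg'
    refine ⟨fun k => if k = ⟨k₀, hk₀⟩ then (f k).succ else (f k).castSucc, ?_⟩
    have h1 : ∀ k : K, (k : M) ^ (((if k = ⟨k₀, hk₀⟩ then (f k).succ else (f k).castSucc :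
        Fin (n + 1 + 1)) : ℕ)) = (k : M) ^ (f k : ℕ) * (if k = ⟨k₀, hk₀⟩ then (k : M) else 1) := by
      intro k
      split_ifs with h
      · rw [Fin.val_succ, pow_succ]
      · rw [Fin.val_castSucc, mul_one]
    simp only [h1]
    rw [Finset.prod_mul_distrib, ← hf, Finset.prod_ite_eq' Finset.univ]
    simp

theorem card_pow_le_poly {M : Type*} [CommMonoid M] [DecidableEq M] (K : Finset M) (n : ℕ) :
    (K ^ n).card ≤ (n + 1) ^ K.card := by
  have h1 : K ^ n ⊆ Finset.image (fun f : K → Fin (n + 1) => ∏ k : K, (k : M) ^ (f k : ℕ))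
      Finset.univ := by
    intro g hg
    obtain ⟨f, hf⟩ := mem_pow_exists K n g hg
    rw [Finset.mem_image]
    exact ⟨f, Finset.mem_univ _, hf.symm⟩
  calc (K ^ n).card ≤ _ := Finset.card_le_card h1
    _ ≤ (Finset.univ : Finset (K → Fin (n + 1))).card := Finset.card_image_le
    _ = (n + 1) ^ K.card := by
      rw [Finset.card_univ, Fintype.card_fun, Fintype.card_fin, Fintype.card_coe]

theorem exists_small_doubling {M : Type*} [CommMonoid M] [DecidableEq M] (K : Finset M) :
    ∃ n : ℕ, (K ^ (n + 1)).card < 2 * (K ^ n).card := by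
  by_contra hcon
  push Not at hcon
  have h1 : ∀ n : ℕ, 2 ^ n ≤ (K ^ n).card := by
    intro n
    induction n with
    | zero => simp
    | succ n ih =>
      calc 2 ^ (n + 1) = 2 * 2 ^ n := by ring
        _ ≤ 2 * (K ^ n).card := by omega
        _ ≤ _ := hcon n
  have h2 : ∀ n : ℕ, (2 : ℝ) ^ n ≤ ((n : ℝ) + 1) ^ K.card := by
    intro n
    have := le_trans (h1 n) (card_pow_le_poly K n)
    exact_mod_cast this
  have h3 := tendsto_pow_const_div_const_pow_of_one_lt K.card (one_lt_two : (1 : ℝ) < 2)
  have h4 := h3.comp (Filter.tendsto_add_atTop_nat 1)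
  have h5 : ∀ᶠ n : ℕ in Filter.atTop,
      ((fun n : ℕ => (n : ℝ) ^ K.card / 2 ^ n) ∘ fun a => a + 1) n < 1 / 2 :=
    h4.eventually_lt_const (by norm_num)
  obtain ⟨n, hn⟩ := h5.exists
  simp only [Function.comp] at hn
  rw [div_lt_iff₀ (by positivity)] at hn
  have h6 := h2 n
  push_cast at hn
  rw [pow_succ] at hn
  linarith

namespace ScaledVal

variable {B : Type*} [CommRing B] [Nontrivial B] [MulSemiringAction G B] (V : ScaledVal B)

/-- The linear map from coefficient vectors supported on `E` to the skew group ring. -/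
noncomputable def toS (B : Type*) [CommRing B] [MulSemiringAction G B] (E : Finset G) :
    (E → B) →ₗ[B] SkewMonoidAlgebra B G :=
  ∑ m : E, (SkewMonoidAlgebra.lsingle (R := B) (m : G)).comp (LinearMap.proj m)

theorem toS_apply (E : Finset G) (ξ : E → B) :
    toS B E ξ = ∑ m : E, SkewMonoidAlgebra.single (m : G) (ξ m) := by
  unfold toS
  rw [LinearMap.sum_apply]
  rfl

theorem toS_coeff (E : Finset G) (ξ : E → B) (m : E) : (toS B E ξ).coeff (m : G) = ξ m := by
  classical
  rw [toS_apply]
  have h : ∀ (T : Finset E) (c : G),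
      (∑ m ∈ T, SkewMonoidAlgebra.single (m : G) (ξ m)).coeff c
        = ∑ m ∈ T, (SkewMonoidAlgebra.single (m : G) (ξ m)).coeff c := by
    intro T c
    induction T using Finset.induction_on with
    | empty => rfl
    | insert a T ha ih =>
      rw [Finset.sum_insert ha, Finset.sum_insert ha, SkewMonoidAlgebra.coeff_add,
        Finsupp.add_apply, ih]
  rw [h]
  simp only [SkewMonoidAlgebra.coeff_single_apply]
  rw [Finset.sum_eq_single m]
  · rw [if_pos rfl]
  · intro b _ hb
    rw [if_neg]
    intro h
    exact hb (Subtype.ext h)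
  · intro h
    exact absurd (Finset.mem_univ _) h

theorem toS_coeff_of_notMem (E : Finset G) (ξ : E → B) (c : G) (hc : c ∉ E) :
    (toS B E ξ).coeff c = 0 := by
  classical
  rw [toS_apply]
  have h : ∀ (T : Finset E) (c : G),
      (∑ m ∈ T, SkewMonoidAlgebra.single (m : G) (ξ m)).coeff c
        = ∑ m ∈ T, (SkewMonoidAlgebra.single (m : G) (ξ m)).coeff c := by
    intro T c
    induction T using Finset.induction_on with
    | empty => rfl
    | insert a T ha ih =>
      rw [Finset.sum_insert ha, Finset.sum_insert ha, SkewMonoidAlgebra.coeff_add,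
        Finsupp.add_apply, ih]
  rw [h]
  apply Finset.sum_eq_zero
  intro m _
  rw [SkewMonoidAlgebra.coeff_single_apply, if_neg]
  rintro rfl
  exact hc m.2

theorem toS_support_subset (E : Finset G) (ξ : E → B) : (toS B E ξ).support ⊆ E := by
  intro c hc
  rw [SkewMonoidAlgebra.mem_support_iff] at hc
  by_contra h
  exact hc (toS_coeff_of_notMem E ξ c h)

/-- Restriction of the coefficients to a finite set. -/
noncomputable def restr (B : Type*) [CommRing B] [MulSemiringAction G B] (E : Finset G) :
    SkewMonoidAlgebra B G →ₗ[B] (E → B) where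
  toFun z c := z.coeff (c : G)
  map_add' x y := by
    funext c
    rw [SkewMonoidAlgebra.coeff_add]
    rfl
  map_smul' b x := by
    funext c
    rw [SkewMonoidAlgebra.coeff_smul]
    rfl

theorem restr_apply (E : Finset G) (z : SkewMonoidAlgebra B G) (c : E) :
    restr B E z c = z.coeff (c : G) := rfl

include V in
theorem exists_ore (r s : SkewMonoidAlgebra B G) (hs : s ≠ 0) :
    ∃ r' s' : SkewMonoidAlgebra B G, s' ≠ 0 ∧ s' * r = r' * s := by
  classical
  set K : Finset G := r.support ∪ s.support with hK
  obtain ⟨n, hn⟩ := exists_small_doubling K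
  set E : Finset G := K ^ n with hE
  set E' : Finset G := K ^ (n + 1) with hE'
  have hEE' : E * K = E' := by rw [hE, hE', pow_succ]
  let Λ : (E ⊕ E → B) →ₗ[B] (E' → B) :=
    (restr B E').comp
      ((LinearMap.mulRight B r).comp ((toS B E).comp (LinearMap.funLeft B B Sum.inl)) -
        (LinearMap.mulRight B s).comp ((toS B E).comp (LinearMap.funLeft B B Sum.inr)))
  have hΛ : ∀ ξ : E ⊕ E → B, Λ ξ = restr B E'
      (toS B E (fun m => ξ (Sum.inl m)) * r - toS B E (fun m => ξ (Sum.inr m)) * s) := by
    intro ξ
    rfl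
  have hnotinj : ¬ Function.Injective Λ := by
    intro hinj
    have h1 := card_le_of_injective B Λ hinj
    rw [Fintype.card_sum, Fintype.card_coe, Fintype.card_coe] at h1
    omega
  rw [← LinearMap.ker_eq_bot, LinearMap.ker_eq_bot'] at hnotinj
  push Not at hnotinj
  obtain ⟨ξ, hξ, hξ0⟩ := hnotinj
  set s' := toS B E (fun m => ξ (Sum.inl m)) with hs'
  set r' := toS B E (fun m => ξ (Sum.inr m)) with hr'
  have hsupp1 : (s' * r).support ⊆ E' := by
    refine (SkewMonoidAlgebra.support_mul s' r).trans ?_
    rw [← hEE']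
    exact Finset.mul_subset_mul (toS_support_subset E _) Finset.subset_union_left
  have hsupp2 : (r' * s).support ⊆ E' := by
    refine (SkewMonoidAlgebra.support_mul r' s).trans ?_
    rw [← hEE']
    exact Finset.mul_subset_mul (toS_support_subset E _) Finset.subset_union_right
  have heq : s' * r = r' * s := by
    apply SkewMonoidAlgebra.ext
    intro c
    by_cases hc : c ∈ E'
    · have h1 := congrFun (hΛ ξ) ⟨c, hc⟩
      rw [hξ, restr_apply, SkewMonoidAlgebra.coeff_sub, Finsupp.sub_apply] at h1
      exact (sub_eq_zero.1 h1.symm)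
    · have h1 : (s' * r).coeff c = 0 := by
        by_contra h
        exact hc (hsupp1 (SkewMonoidAlgebra.mem_support_iff.2 h))
      have h2 : (r' * s).coeff c = 0 := by
        by_contra h
        exact hc (hsupp2 (SkewMonoidAlgebra.mem_support_iff.2 h))
      rw [h1, h2]
  refine ⟨r', s', ?_, heq⟩
  intro hs0
  have hr0 : r' = 0 := by
    by_contra h
    have := V.mul_ne_zero' r' s h hs
    apply this
    rw [← heq, hs0, zero_mul]
  apply hξ0
  funext i
  rcases i with m | m
  · have := toS_coeff E (fun m => ξ (Sum.inl m)) m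
    rw [← hs', hs0] at this
    exact this.symm
  · have := toS_coeff E (fun m => ξ (Sum.inr m)) m
    rw [← hr', hr0] at this
    exact this.symm

end ScaledVal

end Pool.Agent.Lib.MP_dd6327_al
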