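import Mathlib

/-!
# Skew group rings of the positive reals acting on a valued domain

`B` is a commutative ring with a valuation-like function `w : B → ℝ` and an action of the group
`G = {x : ℝ // 0 < x}` with `w (a • x) = a * w x`.  The elements of the skew group ring
`SkewMonoidAlgebra B G` act on the real line by `z ↦ (r ↦ min_a (a * r + w (z_a)))`.
-/

set_option autoImplicit false
set_option linter.unusedSectionVars false

open scoped Pointwise

namespace Pool.Agent.Lib.MP_dd6327_al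

/-- The multiplicative group of positive real numbers. -/
abbrev G := {x : ℝ // 0 < x}

/-- A commutative ring with an action of the positive reals and a compatible valuation. -/
structure ScaledVal (B : Type*) [CommRing B] [MulSemiringAction G B] where
  /-- the valuation -/
  w : B → ℝ
  ne_zero_mul : ∀ x y : B, x ≠ 0 → y ≠ 0 → x * y ≠ 0
  map_mul : ∀ x y : B, x ≠ 0 → y ≠ 0 → w (x * y) = w x + w y
  map_add : ∀ x y : B, x + y ≠ 0 → min (w x) (w y) ≤ w (x + y)
  map_neg : ∀ x : B, w (-x) = w x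
  map_smul : ∀ (a : G) (x : B), x ≠ 0 → w (a • x) = a * w x
  exists_eq : ∀ c : ℝ, ∃ x : B, x ≠ 0 ∧ w x = c

namespace ScaledVal

variable {B : Type*} [CommRing B] [Nontrivial B] [MulSemiringAction G B] (V : ScaledVal B)

theorem smul_ne_zero (a : G) (x : B) (hx : x ≠ 0) : a • x ≠ 0 := by
  intro h
  apply hx
  have : a⁻¹ • (a • x) = 0 := by rw [h, smul_zero]
  rwa [inv_smul_smul] at this

/-- Elements of value at least `t`. -/
def geB (t : ℝ) : AddSubgroup B where
  carrier := {x | x ≠ 0 → t ≤ V.w x}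
  zero_mem' := fun h => absurd rfl h
  add_mem' := by
    intro x y hx hy hxy
    by_cases h1 : x = 0
    · subst h1
      rw [zero_add] at hxy ⊢
      exact hy hxy
    by_cases h2 : y = 0
    · subst h2
      rw [add_zero] at hxy ⊢
      exact hx hxy
    exact le_trans (le_min (hx h1) (hy h2)) (V.map_add x y hxy)
  neg_mem' := by
    intro x hx hnx
    rw [V.map_neg]
    exact hx (neg_ne_zero.1 hnx)

/-- Elements of value greater than `t`. -/
def gtB (t : ℝ) : AddSubgroup B where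
  carrier := {x | x ≠ 0 → t < V.w x}
  zero_mem' := fun h => absurd rfl h
  add_mem' := by
    intro x y hx hy hxy
    by_cases h1 : x = 0
    · subst h1
      rw [zero_add] at hxy ⊢
      exact hy hxy
    by_cases h2 : y = 0
    · subst h2
      rw [add_zero] at hxy ⊢
      exact hx hxy
    exact lt_of_lt_of_le (lt_min (hx h1) (hy h2)) (V.map_add x y hxy)
  neg_mem' := by
    intro x hx hnx
    rw [V.map_neg]
    exact hx (neg_ne_zero.1 hnx)

theorem mem_geB {t : ℝ} {x : B} : x ∈ V.geB t ↔ (x ≠ 0 → t ≤ V.w x) := Iff.rfl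

theorem mem_gtB {t : ℝ} {x : B} : x ∈ V.gtB t ↔ (x ≠ 0 → t < V.w x) := Iff.rfl

theorem sum_leading {ι : Type*} [DecidableEq ι] (T : Finset ι) (f : ι → B) (i₀ : ι)
    (hi₀ : i₀ ∈ T) (t : ℝ) (h0 : f i₀ ≠ 0) (h1 : V.w (f i₀) = t)
    (h2 : ∀ i ∈ T, i ≠ i₀ → f i ∈ V.gtB t) :
    (∑ i ∈ T, f i) ≠ 0 ∧ V.w (∑ i ∈ T, f i) = t := by
  have hsum : f i₀ + ∑ i ∈ T.erase i₀, f i = ∑ i ∈ T, f i := Finset.add_sum_erase T f hi₀
  have hrest : ∑ i ∈ T.erase i₀, f i ∈ V.gtB t := by
    apply AddSubgroup.sum_mem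
    intro i hi
    rw [Finset.mem_erase] at hi
    exact h2 i hi.2 hi.1
  have hnot : f i₀ ∉ V.gtB t := by
    intro h
    have := h h0
    rw [h1] at this
    exact lt_irrefl _ this
  have hS : (∑ i ∈ T, f i) ∉ V.gtB t := by
    intro h
    apply hnot
    have : f i₀ = (∑ i ∈ T, f i) - ∑ i ∈ T.erase i₀, f i := by
      rw [← hsum, add_sub_cancel_right]
    rw [this]
    exact sub_mem h hrest
  have hge : (∑ i ∈ T, f i) ∈ V.geB t := by
    rw [← hsum]
    apply add_mem
    · intro _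
      exact h1.ge
    · intro h
      exact (hrest h).le
  have hne : (∑ i ∈ T, f i) ≠ 0 := by
    intro h
    apply hS
    rw [h]
    exact zero_mem _
  refine ⟨hne, le_antisymm ?_ (hge hne)⟩
  by_contra hcon
  push Not at hcon
  exact hS (fun _ => hcon)

/-! ### The action of skew group ring elements -/

/-- The support is nonempty. -/
theorem supp_nonempty {z : SkewMonoidAlgebra B G} (hz : z ≠ 0) : z.support.Nonempty := by
  rw [Finset.nonempty_iff_ne_empty]
  intro h
  exact hz (SkewMonoidAlgebra.support_eq_empty.1 h)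

/-- The action of a nonzero element of the skew group ring on the real line. -/
noncomputable def val (z : SkewMonoidAlgebra B G) (hz : z ≠ 0) (r : ℝ) : ℝ :=
  z.support.inf' (supp_nonempty hz) (fun a => (a : ℝ) * r + V.w (z.coeff a))

theorem val_le (z : SkewMonoidAlgebra B G) (hz : z ≠ 0) (r : ℝ) (a : G)
    (ha : z.coeff a ≠ 0) : V.val z hz r ≤ (a : ℝ) * r + V.w (z.coeff a) :=
  Finset.inf'_le _ (SkewMonoidAlgebra.mem_support_iff.2 ha)

theorem le_val_iff (z : SkewMonoidAlgebra B G) (hz : z ≠ 0) (r t : ℝ) :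
    t ≤ V.val z hz r ↔ ∀ a : G, z.coeff a ≠ 0 → t ≤ (a : ℝ) * r + V.w (z.coeff a) := by
  unfold val
  rw [Finset.le_inf'_iff]
  simp only [SkewMonoidAlgebra.mem_support_iff]

theorem exists_val_eq (z : SkewMonoidAlgebra B G) (hz : z ≠ 0) (r : ℝ) :
    ∃ a : G, z.coeff a ≠ 0 ∧ V.val z hz r = (a : ℝ) * r + V.w (z.coeff a) := by
  obtain ⟨a, ha, h⟩ := Finset.exists_mem_eq_inf' (supp_nonempty hz)
    (fun a : G => (a : ℝ) * r + V.w (z.coeff a))
  exact ⟨a, SkewMonoidAlgebra.mem_support_iff.1 ha, h⟩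

/-- Among the indices attaining the minimum there is a largest one. -/
theorem exists_max_val_eq (z : SkewMonoidAlgebra B G) (hz : z ≠ 0) (r : ℝ) :
    ∃ a : G, z.coeff a ≠ 0 ∧ V.val z hz r = (a : ℝ) * r + V.w (z.coeff a) ∧
      ∀ b : G, z.coeff b ≠ 0 → V.val z hz r = (b : ℝ) * r + V.w (z.coeff b) → b ≤ a := by
  classical
  have hne : (z.support.filter
      (fun a : G => V.val z hz r = (a : ℝ) * r + V.w (z.coeff a))).Nonempty := by
    obtain ⟨a, ha, h⟩ := V.exists_val_eq z hz r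
    exact ⟨a, Finset.mem_filter.2 ⟨SkewMonoidAlgebra.mem_support_iff.2 ha, h⟩⟩
  obtain ⟨a, ha, hmax⟩ := Finset.exists_max_image _ (fun a : G => a) hne
  rw [Finset.mem_filter, SkewMonoidAlgebra.mem_support_iff] at ha
  refine ⟨a, ha.1, ha.2, ?_⟩
  intro b hb hb'
  exact hmax b (Finset.mem_filter.2 ⟨SkewMonoidAlgebra.mem_support_iff.2 hb, hb'⟩)

theorem val_eq_of (z : SkewMonoidAlgebra B G) (hz : z ≠ 0) (r t : ℝ)
    (h1 : ∀ a : G, z.coeff a ≠ 0 → t ≤ (a : ℝ) * r + V.w (z.coeff a))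
    (h2 : ∃ a : G, z.coeff a ≠ 0 ∧ (a : ℝ) * r + V.w (z.coeff a) = t) : V.val z hz r = t := by
  apply le_antisymm
  · obtain ⟨a, ha, h⟩ := h2
    rw [← h]
    exact V.val_le z hz r a ha
  · rw [V.le_val_iff]
    exact h1

theorem val_strictMono (z : SkewMonoidAlgebra B G) (hz : z ≠ 0) : StrictMono (V.val z hz) := by
  intro r r' hrr'
  obtain ⟨a, ha, h⟩ := V.exists_val_eq z hz r'
  rw [h]
  apply lt_of_le_of_lt (V.val_le z hz r a ha)
  have : (a : ℝ) * r < (a : ℝ) * r' := mul_lt_mul_of_pos_left hrr' a.2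
  linarith

theorem val_surjective (z : SkewMonoidAlgebra B G) (hz : z ≠ 0) :
    Function.Surjective (V.val z hz) := by
  intro t
  obtain ⟨a, ha, h⟩ := Finset.exists_mem_eq_sup' (supp_nonempty hz)
    (fun a : G => (t - V.w (z.coeff a)) / (a : ℝ))
  set r := z.support.sup' (supp_nonempty hz) (fun a : G => (t - V.w (z.coeff a)) / (a : ℝ)) with hr
  refine ⟨r, V.val_eq_of z hz r t ?_ ⟨a, SkewMonoidAlgebra.mem_support_iff.1 ha, ?_⟩⟩
  · intro b hb
    have h1 : (t - V.w (z.coeff b)) / (b : ℝ) ≤ r := by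
      rw [hr]
      exact Finset.le_sup' (fun a : G => (t - V.w (z.coeff a)) / (a : ℝ))
        (SkewMonoidAlgebra.mem_support_iff.2 hb)
    rw [div_le_iff₀ b.2] at h1
    linarith [mul_comm r (b : ℝ)]
  · have h1 : r * (a : ℝ) = t - V.w (z.coeff a) := by
      rw [h]
      field_simp [a.2.ne']
    linarith [mul_comm r (a : ℝ)]

theorem coeff_mul_eq (z z' : SkewMonoidAlgebra B G) (c : G) :
    (z * z').coeff c = ∑ p ∈ z.support ×ˢ z'.support,
      if p.1 * p.2 = c then z.coeff p.1 * p.1 • z'.coeff p.2 else 0 := by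
  classical
  rw [SkewMonoidAlgebra.coeff_mul, Finset.sum_product]
  rfl

theorem mul_aux (z z' : SkewMonoidAlgebra B G) (hz : z ≠ 0) (hz' : z' ≠ 0) (r : ℝ) :
    (∀ c : G, (z * z').coeff c ≠ 0 →
      V.val z hz (V.val z' hz' r) ≤ (c : ℝ) * r + V.w ((z * z').coeff c)) ∧
    ∃ c : G, (z * z').coeff c ≠ 0 ∧
      (c : ℝ) * r + V.w ((z * z').coeff c) = V.val z hz (V.val z' hz' r) := by
  classical
  set s := V.val z' hz' r with hs
  set t := V.val z hz s with ht
  have hterm : ∀ a b : G, z.coeff a ≠ 0 → z'.coeff b ≠ 0 →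
      z.coeff a * a • z'.coeff b ≠ 0 ∧
      V.w (z.coeff a * a • z'.coeff b) = V.w (z.coeff a) + (a : ℝ) * V.w (z'.coeff b) := by
    intro a b ha hb
    have h1 := smul_ne_zero a _ hb
    refine ⟨V.ne_zero_mul _ _ ha h1, ?_⟩
    rw [V.map_mul _ _ ha h1, V.map_smul _ _ hb]
  have hval : ∀ a b : G, z.coeff a ≠ 0 → z'.coeff b ≠ 0 →
      t ≤ ((a * b : G) : ℝ) * r + V.w (z.coeff a * a • z'.coeff b) := by
    intro a b ha hb
    rw [(hterm a b ha hb).2]
    have h1 : s ≤ (b : ℝ) * r + V.w (z'.coeff b) := V.val_le z' hz' r b hb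
    have h2 : t ≤ (a : ℝ) * s + V.w (z.coeff a) := V.val_le z hz s a ha
    have h3 : (a : ℝ) * s ≤ (a : ℝ) * ((b : ℝ) * r + V.w (z'.coeff b)) :=
      mul_le_mul_of_nonneg_left h1 a.2.le
    have h4 : ((a * b : G) : ℝ) = (a : ℝ) * (b : ℝ) := rfl
    rw [h4]
    nlinarith
  constructor
  · intro c hc
    have h1 : (z * z').coeff c ∈ V.geB (t - (c : ℝ) * r) := by
      rw [coeff_mul_eq]
      apply AddSubgroup.sum_mem
      rintro ⟨a, b⟩ hab
      rw [Finset.mem_product, SkewMonoidAlgebra.mem_support_iff,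
        SkewMonoidAlgebra.mem_support_iff] at hab
      dsimp only at hab ⊢
      split_ifs with h
      · intro _
        have := hval a b hab.1 hab.2
        rw [h] at this
        linarith
      · exact zero_mem _
    have := h1 hc
    linarith
  · obtain ⟨a₀, ha₀, ha₀', ha₀m⟩ := V.exists_max_val_eq z hz s
    obtain ⟨b₀, hb₀, hb₀', hb₀m⟩ := V.exists_max_val_eq z' hz' r
    rw [← ht] at ha₀' ha₀m
    rw [← hs] at hb₀' hb₀m
    have hlead := V.sum_leading (z.support ×ˢ z'.support)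
      (fun p => if p.1 * p.2 = a₀ * b₀ then z.coeff p.1 * p.1 • z'.coeff p.2 else 0) (a₀, b₀)
      (Finset.mem_product.2 ⟨SkewMonoidAlgebra.mem_support_iff.2 ha₀,
        SkewMonoidAlgebra.mem_support_iff.2 hb₀⟩) (t - ((a₀ * b₀ : G) : ℝ) * r)
      (by
        dsimp only
        rw [if_pos rfl]
        exact (hterm a₀ b₀ ha₀ hb₀).1)
      (by
        dsimp only
        rw [if_pos rfl, (hterm a₀ b₀ ha₀ hb₀).2]
        have h4 : ((a₀ * b₀ : G) : ℝ) = (a₀ : ℝ) * (b₀ : ℝ) := rfl
        rw [h4, ha₀', hb₀']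
        ring)
      (by
        rintro ⟨a, b⟩ hab hne
        rw [Finset.mem_product, SkewMonoidAlgebra.mem_support_iff,
          SkewMonoidAlgebra.mem_support_iff] at hab
        dsimp only at hab ⊢
        split_ifs with h
        · intro _
          rw [← h, (hterm a b hab.1 hab.2).2]
          have h1 : s ≤ (b : ℝ) * r + V.w (z'.coeff b) := V.val_le z' hz' r b hab.2
          have h2 : t ≤ (a : ℝ) * s + V.w (z.coeff a) := V.val_le z hz s a hab.1
          have h4 : ((a * b : G) : ℝ) = (a : ℝ) * (b : ℝ) := rfl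
          rw [h4]
          by_contra hcon
          push Not at hcon
          have h3 : (a : ℝ) * s ≤ (a : ℝ) * ((b : ℝ) * r + V.w (z'.coeff b)) :=
            mul_le_mul_of_nonneg_left h1 a.2.le
          have e1 : t = (a : ℝ) * s + V.w (z.coeff a) := by nlinarith
          have e2 : (a : ℝ) * s = (a : ℝ) * ((b : ℝ) * r + V.w (z'.coeff b)) := by nlinarith
          have e3 : s = (b : ℝ) * r + V.w (z'.coeff b) := mul_left_cancel₀ a.2.ne' e2
          have la := ha₀m a hab.1 e1
          have lb := hb₀m b hab.2 e3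
          have hab' : a = a₀ ∧ b = b₀ := by
            rcases la.lt_or_eq with h5 | h5
            · exact absurd h (mul_lt_mul_of_lt_of_le h5 lb).ne
            · rcases lb.lt_or_eq with h6 | h6
              · exact absurd h (mul_lt_mul_of_le_of_lt la h6).ne
              · exact ⟨h5, h6⟩
          exact hne (Prod.ext hab'.1 hab'.2)
        · exact zero_mem _)
    rw [← coeff_mul_eq] at hlead
    refine ⟨a₀ * b₀, hlead.1, ?_⟩
    rw [hlead.2]
    ring

include V in
theorem mul_ne_zero' (z z' : SkewMonoidAlgebra B G) (hz : z ≠ 0) (hz' : z' ≠ 0) :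
    z * z' ≠ 0 := by
  obtain ⟨-, c, hc, -⟩ := V.mul_aux z z' hz hz' 0
  intro h
  apply hc
  rw [h]
  rfl

theorem val_mul (z z' : SkewMonoidAlgebra B G) (hz : z ≠ 0) (hz' : z' ≠ 0)
    (hzz' : z * z' ≠ 0) (r : ℝ) :
    V.val (z * z') hzz' r = V.val z hz (V.val z' hz' r) := by
  obtain ⟨h1, h2⟩ := V.mul_aux z z' hz hz' r
  exact V.val_eq_of _ _ _ _ h1 h2

theorem val_add (z z' : SkewMonoidAlgebra B G) (hz : z ≠ 0) (hz' : z' ≠ 0)
    (hzz' : z + z' ≠ 0) (r : ℝ) :
    min (V.val z hz r) (V.val z' hz' r) ≤ V.val (z + z') hzz' r := by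
  rw [V.le_val_iff]
  intro a ha
  have h0 : (z + z').coeff a = z.coeff a + z'.coeff a := by
    rw [SkewMonoidAlgebra.coeff_add]
    rfl
  set m := min (V.val z hz r) (V.val z' hz' r) with hm
  have h1 : z.coeff a ∈ V.geB (m - (a : ℝ) * r) := by
    intro h
    have := V.val_le z hz r a h
    have h2 : m ≤ V.val z hz r := min_le_left _ _
    linarith
  have h2 : z'.coeff a ∈ V.geB (m - (a : ℝ) * r) := by
    intro h
    have := V.val_le z' hz' r a h
    have h2 : m ≤ V.val z' hz' r := min_le_right _ _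
    linarith
  have h3 := add_mem h1 h2
  rw [← h0] at h3
  have := h3 ha
  linarith

theorem single_ne_zero (a : G) (x : B) (hx : x ≠ 0) :
    SkewMonoidAlgebra.single a x ≠ 0 := by
  intro h
  exact hx (SkewMonoidAlgebra.single_eq_zero.1 h)

theorem val_single (a : G) (x : B) (hx : x ≠ 0) (h : SkewMonoidAlgebra.single a x ≠ 0) (r : ℝ) :
    V.val (SkewMonoidAlgebra.single a x) h r = (a : ℝ) * r + V.w x := by
  classical
  apply V.val_eq_of
  · intro b hb
    rw [SkewMonoidAlgebra.coeff_single_apply] at hb ⊢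
    split_ifs at hb ⊢ with h1
    · rw [h1]
    · exact absurd rfl hb
  · refine ⟨a, ?_, ?_⟩
    · rw [SkewMonoidAlgebra.coeff_single_apply, if_pos rfl]
      exact hx
    · rw [SkewMonoidAlgebra.coeff_single_apply, if_pos rfl]

end ScaledVal

end Pool.Agent.Lib.MP_dd6327_al
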